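import Pool.Agent.Helper66_D1.Stmts
import Pool.Agent.Helper66_BN.Co3

/-!
# Squad PP, part D1: the correspondence is equivariant
-/

open scoped BigOperators

noncomputable section

namespace Pool.Agent.PP.D1.H13

open Pool.Agent.PP Pool.Agent.Helper51_AWC Pool.Agent.Helper79_WRA Pool.Agent.PP.BN.H66

variable {F : Type} [Field F]

/-- composition of an irreducible representation with an automorphism -/
theorem irr_comp {N : Type} [Group N] {n : ℕ} (σ : N →* Matrix (Fin n) (Fin n) F) (e : N ≃* N)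
    (h : IsIrr σ) : IsIrr (σ.comp e.toMonoidHom) := by
  refine ⟨h.1, ?_⟩
  have h7 : Set.range (σ.comp e.toMonoidHom) = Set.range σ := by
    ext A
    constructor
    · rintro ⟨g, rfl⟩
      exact ⟨_, rfl⟩
    · rintro ⟨g, rfl⟩
      exact ⟨e.symm g, by simp⟩
  rw [h7]
  exact h.2

/-- C3D -/
theorem c3d : C3dStmt := by
  intro F _ G _ _ N P _ hPN φ θ hc x
  obtain ⟨n, σ, m, κ, π, h1, h2, h3, h4, h5⟩ := hc
  have hfix : ∀ v : Fin n → F,
      v ∈ fixV (mrep (σ.comp (MulAut.conjNormal (x : G) : N ≃* N).toMonoidHom)) (P.subgroupOf N) ↔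
        v ∈ fixV (mrep σ) (P.subgroupOf N) := by
    intro v
    constructor
    · intro h p hp
      have h6 := h ((cjU N P x).symm ⟨p, hp⟩) ((cjU N P x).symm ⟨p, hp⟩).2
      have h8 : (MulAut.conjNormal (x : G) : N ≃* N) (((cjU N P x).symm ⟨p, hp⟩ :
          P.subgroupOf N) : N) = p := by
        rw [← cjU_coe, Equiv.apply_symm_apply]
      have h9 : mrep σ ((MulAut.conjNormal (x : G) : N ≃* N) (((cjU N P x).symm ⟨p, hp⟩ :
          P.subgroupOf N) : N)) v = v := h6
      rwa [h8] at h9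
    · intro h p hp
      have h6 := h (cjU N P x ⟨p, hp⟩) (cjU N P x ⟨p, hp⟩).2
      rw [cjU_coe] at h6
      exact h6
  have hnrm : nrmV (mrep (σ.comp (MulAut.conjNormal (x : G) : N ≃* N).toMonoidHom))
      (P.subgroupOf N) = nrmV (mrep σ) (P.subgroupOf N) := by
    unfold nrmV
    have h7 := finsum_comp_equiv (cjU N P x) (f := fun u : P.subgroupOf N => mrep σ u)
    rw [← h7]
    rfl
  refine ⟨n, σ.comp (MulAut.conjNormal (x : G) : N ≃* N).toMonoidHom, m,
    κ.comp (MulAut.conjNormal x : N.subgroupOf (Subgroup.normalizer (P : Set G)) ≃*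
      N.subgroupOf (Subgroup.normalizer (P : Set G))).toMonoidHom, π, irr_comp σ _ h1, ?_,
      irr_comp κ _ h3, ?_, ⟨fun a v hv => ?_, fun v hv => ?_, fun w => ?_⟩⟩
  · funext l
    rw [← h2]
    rfl
  · funext l
    rw [← h4]
    rfl
  · have h6 := h5.int (MulAut.conjNormal x a) v ((hfix v).1 hv)
    have h8 : ((MulAut.conjNormal (x : G) : N ≃* N)
        (jN N (Subgroup.normalizer (P : Set G)) a) : N) =
        jN N (Subgroup.normalizer (P : Set G)) (MulAut.conjNormal x a) := by
      apply Subtype.ext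
      simp only [MulAut.conjNormal_apply, jN, MonoidHom.coe_mk, OneHom.coe_mk, Subgroup.coe_mul,
        InvMemClass.coe_inv]
    show π (mrep σ ((MulAut.conjNormal (x : G) : N ≃* N)
      (jN N (Subgroup.normalizer (P : Set G)) a)) v) = _
    rw [h8]
    exact h6
  · rw [hnrm]
    exact h5.ker v ((hfix v).1 hv)
  · obtain ⟨v, hv, h⟩ := h5.sur w
    exact ⟨v, (hfix v).2 hv, h⟩

end Pool.Agent.PP.D1.H13
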